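import Mathlib

set_option autoImplicit false

open Set Topology

namespace Pool.Agent.Results.MP_45eb7b_gt.NotPrecompact

/-- `X` is weakly pseudocompact: there is a Hausdorff compactification `i : X → K` of `X`
(a dense embedding into a compact Hausdorff space) such that `i(X)` meets every nonempty
`G_δ`-subset of `K`. -/
def WeaklyPseudocompact (X : Type) [TopologicalSpace X] : Prop :=
  ∃ (K : Type) (_ : TopologicalSpace K) (i : X → K),
    CompactSpace K ∧ T2Space K ∧ IsEmbedding i ∧ DenseRange i ∧
      ∀ S : Set K, IsGδ S → S.Nonempty → (S ∩ range i).Nonempty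

/-- `G` is `ω`-bounded in the sense of Guran: for every neighbourhood `U` of the identity there
is a countable set `C` with `G = C U`. -/
def OmegaBounded (G : Type) [Group G] [TopologicalSpace G] : Prop :=
  ∀ U ∈ 𝓝 (1 : G), ∃ C : Set G, C.Countable ∧ ∀ g : G, ∃ c ∈ C, ∃ u ∈ U, g = c * u

/-- `G` is precompact: for every neighbourhood `U` of the identity there
is a finite set `C` with `G = C U`. -/
def Precompact (G : Type) [Group G] [TopologicalSpace G] : Prop :=
  ∀ U ∈ 𝓝 (1 : G), ∃ C : Set G, C.Finite ∧ ∀ g : G, ∃ c ∈ C, ∃ u ∈ U, g = c * u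

/-- The compact group `{±1}^ℝ`. -/
abbrev Cube : Type := ℝ → ℤˣ

/-- The `Σ`-product in `{±1}^ℝ`: functions with countable support. -/
def Sig : Subgroup Cube where
  carrier := {f | {x | f x ≠ 1}.Countable}
  one_mem' := by simp
  mul_mem' := by
    intro f g hf hg
    refine (hf.union hg).mono ?_
    intro x hx
    by_contra h
    simp only [mem_union, mem_ofPred_eq, not_or, not_not] at h
    exact hx (by simp [h.1, h.2])
  inv_mem' := by
    intro f hf
    have : {x | f⁻¹ x ≠ 1} = {x | f x ≠ 1} := by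
      ext x; simp
    simpa [this] using hf

/-- A point of the cube outside `Sig`. -/
def pt : Cube := fun _ => -1

lemma pt_not_mem : pt ∉ Sig := by
  intro h
  have h1 : {x : ℝ | pt x ≠ 1} = univ := by
    ext x; simp [pt]
  have h2 : {x : ℝ | pt x ≠ 1}.Countable := h
  rw [h1] at h2
  exact not_countable_univ h2

/-- The `Σ`-product is `G_δ`-dense in the cube. -/
lemma sig_gdelta_dense (V : ℕ → Set Cube) (f : Cube) (hV : ∀ k, V k ∈ 𝓝 f) :
    ∃ g ∈ Sig, ∀ k, g ∈ V k := by
  have h : ∀ k, ∃ F : Finset ℝ, ∀ g : Cube, (∀ x ∈ F, g x = f x) → g ∈ V k := by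
    intro k
    have := hV k
    rw [nhds_pi, Filter.mem_pi] at this
    obtain ⟨I, hI, t, ht, hsub⟩ := this
    refine ⟨hI.toFinset, fun g hg => hsub ?_⟩
    intro x hx
    rw [hg x (by simpa using hx)]
    exact mem_of_mem_nhds (ht x)
  choose F hF using h
  classical
  refine ⟨fun x => if x ∈ ⋃ k, (F k : Set ℝ) then f x else 1, ?_, ?_⟩
  · have hc : (⋃ k, (F k : Set ℝ)).Countable := countable_iUnion fun k => (F k).countable_toSet
    refine hc.mono ?_
    intro x hx
    by_contra h
    exact hx (if_neg h)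
  · intro k
    refine hF k _ fun x hx => ?_
    exact if_pos (mem_iUnion.2 ⟨k, hx⟩)

/-- The open subspace of the cube omitting one point. -/
abbrev O : Type := {f : Cube // f ≠ pt}

/-- The counterexample. -/
abbrev G : Type := Multiplicative ℤ × Sig

/-- The compactification of `G`. -/
abbrev K : Type := OnePoint (Multiplicative ℤ × O)

instance : LocallyCompactSpace O := by
  have : IsOpen {f : Cube | f ≠ pt} := isOpen_ne
  exact this.locallyCompactSpace

lemma sig_ne (g : Sig) : (g : Cube) ≠ pt := fun h => pt_not_mem (h ▸ g.2)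

/-- The embedding of `G` into the compactification. -/
def emb (x : G) : K := ((x.1, (⟨x.2, sig_ne x.2⟩ : O)) : Multiplicative ℤ × O)

lemma isEmbedding_emb : IsEmbedding emb := by
  have h1 : IsEmbedding (fun g : Sig => (⟨g, sig_ne g⟩ : O)) :=
    IsEmbedding.of_comp (by fun_prop) continuous_subtype_val IsEmbedding.subtypeVal
  have h2 : IsEmbedding (Prod.map (id : Multiplicative ℤ → Multiplicative ℤ)
      (fun g : Sig => (⟨g, sig_ne g⟩ : O))) := IsEmbedding.id.prodMap h1
  exact OnePoint.isOpenEmbedding_coe.isEmbedding.comp h2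

open Classical in
/-- For each `n`, the copy of the cube in the compactification: `pt` goes to infinity. -/
noncomputable def phi (n : Multiplicative ℤ) (f : Cube) : K :=
  if h : f ≠ pt then ((n, (⟨f, h⟩ : O)) : Multiplicative ℤ × O) else OnePoint.infty

lemma continuous_phi (n : Multiplicative ℤ) : Continuous (phi n) := by
  rw [continuous_iff_continuousAt]
  intro f
  by_cases hf : f ≠ pt
  · have hopen : IsOpen {f : Cube | f ≠ pt} := isOpen_ne
    have hon : ContinuousOn (phi n) {f : Cube | f ≠ pt} := by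
      rw [continuousOn_iff_continuous_domRestrict]
      have : ({f : Cube | f ≠ pt}.domRestrict (phi n)) =
          fun g : O => (((n, g) : Multiplicative ℤ × O) : K) := by
        funext g
        have hg : (g : Cube) ≠ pt := g.2
        simp [phi, Set.domRestrict, hg]
      rw [this]
      exact OnePoint.continuous_coe.comp (by fun_prop)
    exact hon.continuousAt (hopen.mem_nhds hf)
  · push Not at hf
    subst hf
    have hval : phi n pt = OnePoint.infty := by simp [phi]
    rw [ContinuousAt, hval]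
    intro U hU
    obtain ⟨V, hVU, hVo, hV⟩ := mem_nhds_iff.1 hU
    have hcomp : IsCompact ((↑) ⁻¹' V : Set (Multiplicative ℤ × O))ᶜ :=
      ((OnePoint.isOpen_iff_of_mem hV).1 hVo).2
    -- the image of the compact set in the cube
    have hcl : IsClosed ((fun x : Multiplicative ℤ × O => (x.2 : Cube)) ''
        (((↑) ⁻¹' V : Set (Multiplicative ℤ × O))ᶜ)) :=
      (hcomp.image (by fun_prop)).isClosed
    have hmem : pt ∈ ((fun x : Multiplicative ℤ × O => (x.2 : Cube)) ''
        (((↑) ⁻¹' V : Set (Multiplicative ℤ × O))ᶜ))ᶜ := by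
      rintro ⟨x, -, hx⟩
      exact x.2.2 hx
    rw [Filter.mem_map]
    refine Filter.mem_of_superset (hcl.isOpen_compl.mem_nhds hmem) ?_
    intro g hg
    refine hVU ?_
    by_cases hgp : g ≠ pt
    · by_contra hgV
      refine hg ⟨(n, ⟨g, hgp⟩), ?_, rfl⟩
      intro h
      apply hgV
      simpa [phi, hgp] using h
    · push Not at hgp
      subst hgp
      simpa [hval] using hV

lemma emb_eq_phi (n : Multiplicative ℤ) (g : Sig) : emb (n, g) = phi n g := by
  simp [emb, phi, sig_ne g]

lemma gdelta_dense (S : Set K) (hS : IsGδ S) (hne : S.Nonempty) : (S ∩ range emb).Nonempty := by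
  obtain ⟨x, hx⟩ := hne
  obtain ⟨n, f, rfl⟩ : ∃ n f, phi n f = x := by
    induction x using OnePoint.rec with
    | infty => exact ⟨1, pt, by simp [phi]⟩
    | coe y =>
      obtain ⟨n, f, hf⟩ := y
      exact ⟨n, f, by simp [phi, hf]⟩
  obtain ⟨U, hUo, rfl⟩ := isGδ_iff_eq_iInter_nat.1 hS
  obtain ⟨g, hg, hgV⟩ := sig_gdelta_dense (fun k => phi n ⁻¹' U k) f (fun k =>
    ((hUo k).preimage (continuous_phi n)).mem_nhds (mem_iInter.1 hx k))
  refine ⟨emb (n, ⟨g, hg⟩), ?_, mem_range_self _⟩
  rw [emb_eq_phi]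
  exact mem_iInter.2 hgV

lemma weaklyPseudocompact_G : WeaklyPseudocompact G := by
  refine ⟨K, inferInstance, emb, inferInstance, inferInstance, isEmbedding_emb, ?_, gdelta_dense⟩
  rw [DenseRange, dense_iff_inter_open]
  intro U hU hne
  exact gdelta_dense U hU.isGδ hne

lemma omegaBounded_G : OmegaBounded G := by
  intro U hU
  rw [show (1 : G) = ((1 : Multiplicative ℤ), (1 : Sig)) from rfl, nhds_prod_eq,
    Filter.mem_prod_iff] at hU
  obtain ⟨A, hA, B, hB, hAB⟩ := hU
  rw [nhds_subtype, Filter.mem_comap] at hB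
  obtain ⟨B', hB', hBB⟩ := hB
  rw [show ((1 : Sig) : Cube) = 1 from rfl, nhds_pi, Filter.mem_pi] at hB'
  obtain ⟨I, hI, t, ht, hsub⟩ := hB'
  have hfin : {f : Cube | ∀ x, x ∉ I → f x = 1}.Finite := by
    have : Finite I := hI
    refine Set.Finite.of_injOn (f := fun (f : Cube) => (fun x : I => f x)) (t := univ)
      (fun _ _ => mem_univ _) ?_ (Set.toFinite _)
    intro f hf g hg h
    funext x
    by_cases hx : x ∈ I
    · exact congrFun h ⟨x, hx⟩
    · rw [hf x hx, hg x hx]
  have hfin2 : {g : Sig | ∀ x, x ∉ I → (g : Cube) x = 1}.Finite :=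
    Set.Finite.of_injOn (f := Subtype.val) (fun g hg => hg) (Subtype.val_injective.injOn) hfin
  refine ⟨univ ×ˢ {g : Sig | ∀ x, x ∉ I → (g : Cube) x = 1},
    countable_univ.prod hfin2.countable, ?_⟩
  rintro ⟨n, g⟩
  classical
  let c : Cube := fun x => if x ∈ I then (g : Cube) x else 1
  have hc : c ∈ Sig := by
    refine hI.countable.mono ?_
    intro x hx
    by_contra h
    exact hx (if_neg h)
  refine ⟨(n, ⟨c, hc⟩), ⟨mem_univ _, fun x hx => if_neg hx⟩,
    (1, (⟨c, hc⟩ : Sig)⁻¹ * g), hAB ⟨mem_of_mem_nhds hA, hBB (hsub ?_)⟩, ?_⟩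
  · intro x hx
    have : ((((⟨c, hc⟩ : Sig)⁻¹ * g : Sig) : Cube)) x = 1 := by
      simp [c, hx]
    rw [this]
    exact mem_of_mem_nhds (ht x)
  · ext1 <;> simp

lemma not_precompact_G : ¬ Precompact G := by
  intro h
  have hU : {x : G | x.1 = 1} ∈ 𝓝 (1 : G) := by
    have : IsOpen {x : G | x.1 = 1} :=
      (isOpen_discrete ({1} : Set (Multiplicative ℤ))).preimage continuous_fst
    exact this.mem_nhds rfl
  obtain ⟨C, hC, hcov⟩ := h _ hU
  have : (Set.univ : Set (Multiplicative ℤ)) ⊆ Prod.fst '' C := by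
    intro n _
    obtain ⟨c, hc, u, hu, he⟩ := hcov (n, 1)
    refine ⟨c, hc, ?_⟩
    have := congrArg Prod.fst he
    rw [Prod.fst_mul] at this
    have hu' : u.1 = 1 := hu
    rw [hu', mul_one] at this
    exact this.symm
  exact Set.infinite_univ ((hC.image _).subset this)

/-- There is a Hausdorff (abelian) topological group which is weakly pseudocompact and
`ω`-bounded in the sense of Guran, but not precompact. -/
theorem result : ∃ (G : Type) (_ : CommGroup G) (_ : TopologicalSpace G),
    IsTopologicalGroup G ∧ T2Space G ∧ WeaklyPseudocompact G ∧ OmegaBounded G ∧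
      ¬ Precompact G :=
  ⟨G, inferInstance, inferInstance, inferInstance, inferInstance, weaklyPseudocompact_G,
    omegaBounded_G, not_precompact_G⟩

end Pool.Agent.Results.MP_45eb7b_gt.NotPrecompact
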